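import Pool.Agent.K3h8.GG.Stm2
import Pool.Agent.K3h85.PG.Lin

/-!
# The dimension of the algebra of the permutations of signed words (brick DIM2)

For a word `c` over `p + 1` even letters and one odd letter (`none`) let `wd c` be a word whose odd
letters carry the labels `0, 1, …`, and let `asy` be its antisymmetrization. The matrix of the numbers
`T (t⁻¹ * s)`, where `T g` is the signed number of the words fixed by `g`, kills `Ker p n`, has the
trace `n! (p + 2) ^ n`, and its entries are bounded by the numbers of the fixed words.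
-/

set_option autoImplicit false

open Equiv (Perm)
open Pool.Agent.K3h8.GG Pool.Agent.K3h85.PG

noncomputable section

namespace Pool.Agent.K3h66.GG

variable {p k n : ℕ}

/-- Each label is used exactly once. -/
def Exa (w : Fin n → Fin (p + 1) ⊕ Fin k) : Prop := ∀ j : Fin k, ∃! i, w i = Sum.inr j

/-- The antisymmetrization of a word. -/
def asy (w : Fin n → Fin (p + 1) ⊕ Fin k) : (Fin n → Fin (p + 1) ⊕ Fin k) → ℚ :=
  fun v => ∑ π : Perm (Fin k), if Sum.map id π ∘ w = v then ((Equiv.Perm.sign π : ℤ) : ℚ) else 0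

theorem map_mul_comp (ρ π : Perm (Fin k)) (w : Fin n → Fin (p + 1) ⊕ Fin k) :
    Sum.map id (ρ * π : Perm (Fin k)) ∘ w = Sum.map id ρ ∘ (Sum.map id π ∘ w) := by
  funext i
  simp only [Function.comp_apply]
  cases w i <;> rfl

theorem map_one_comp (w : Fin n → Fin (p + 1) ⊕ Fin k) :
    Sum.map id (1 : Perm (Fin k)) ∘ w = w := by
  funext i
  simp only [Function.comp_apply]
  cases w i <;> rfl

theorem map_comp_inj (ρ : Perm (Fin k)) : Function.Injective
    (fun w : Fin n → Fin (p + 1) ⊕ Fin k => Sum.map id ρ ∘ w) := by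
  intro w w' h
  have h2 := congrArg (fun x => Sum.map id (ρ⁻¹ : Perm (Fin k)) ∘ x) h
  simp only at h2
  rwa [← map_mul_comp, ← map_mul_comp, inv_mul_cancel, map_one_comp, map_one_comp] at h2

theorem asy_mem {w : Fin n → Fin (p + 1) ⊕ Fin k} (hw : Exa w) : asy w ∈ FF p k n := by
  refine ⟨fun ρ v => ?_, fun v hv => ?_⟩
  · unfold asy
    rw [← Equiv.sum_comp (Equiv.mulLeft ρ), Finset.mul_sum]
    refine Finset.sum_congr rfl fun π _ => ?_
    rw [Equiv.coe_mulLeft, map_mul_comp]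
    by_cases h : Sum.map id π ∘ w = v
    · rw [if_pos (by rw [h]), if_pos h, Equiv.Perm.sign_mul]
      push_cast
      ring
    · rw [if_neg (fun h' => h (map_comp_inj ρ h')), if_neg h, mul_zero]
  · have h1 : ∃ π : Perm (Fin k), Sum.map id π ∘ w = v := by
      by_contra h2
      apply hv
      unfold asy
      exact Finset.sum_eq_zero fun π _ => if_neg fun h3 => h2 ⟨π, h3⟩
    obtain ⟨π, rfl⟩ := h1
    intro j
    have h2 : ∀ i, (Sum.map id π ∘ w) i = Sum.inr j ↔ w i = Sum.inr (π⁻¹ j) := by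
      intro i
      rw [Function.comp_apply]
      cases w i with
      | inl a => simp
      | inr l =>
        simp only [Sum.map_inr, Sum.inr.injEq]
        exact (Equiv.Perm.eq_inv_iff_eq).symm
    simp only [h2]
    exact hw _

theorem eq_of_comp {w : Fin n → Fin (p + 1) ⊕ Fin k} (hw : Exa w) {π ρ : Perm (Fin k)}
    (h : Sum.map id π ∘ w = Sum.map id ρ ∘ w) : π = ρ := by
  ext j
  obtain ⟨i, hi, _⟩ := hw j
  have h1 := congrFun h i
  rw [Function.comp_apply, Function.comp_apply, hi] at h1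
  simp only [Sum.map_inr, Sum.inr.injEq] at h1
  rw [h1]

theorem asy_of_eq {w : Fin n → Fin (p + 1) ⊕ Fin k} (hw : Exa w) (π : Perm (Fin k)) :
    asy w (Sum.map id π ∘ w) = ((Equiv.Perm.sign π : ℤ) : ℚ) := by
  unfold asy
  rw [Finset.sum_eq_single π]
  · rw [if_pos rfl]
  · intro ρ _ hρ
    exact if_neg fun h => hρ (eq_of_comp hw h)
  · intro h
    exact absurd (Finset.mem_univ _) h

theorem asy_of_ne {w v : Fin n → Fin (p + 1) ⊕ Fin k}
    (h : ∀ π : Perm (Fin k), Sum.map id π ∘ w ≠ v) : asy w v = 0 :=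
  Finset.sum_eq_zero fun π _ => if_neg (h π)

theorem abs_asy_le {w : Fin n → Fin (p + 1) ⊕ Fin k} (hw : Exa w)
    (v : Fin n → Fin (p + 1) ⊕ Fin k) : |asy w v| ≤ 1 := by
  by_cases h : ∃ π : Perm (Fin k), Sum.map id π ∘ w = v
  · obtain ⟨π, rfl⟩ := h
    rw [asy_of_eq hw]
    rcases Int.units_eq_one_or (Equiv.Perm.sign π) with h1 | h1 <;> rw [h1] <;> norm_num
  · push Not at h
    rw [asy_of_ne h]
    norm_num

theorem asy_inv {w : Fin n → Fin (p + 1) ⊕ Fin k} (hw : Exa w) (g : Perm (Fin n)) :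
    asy w (w ∘ (g⁻¹ : Perm (Fin n))) = asy w (w ∘ g) := by
  have key : ∀ (g : Perm (Fin n)) (π : Perm (Fin k)), Sum.map id π ∘ w = w ∘ g →
      Sum.map id (π⁻¹ : Perm (Fin k)) ∘ w = w ∘ (g⁻¹ : Perm (Fin n)) := by
    intro g π h
    apply map_comp_inj π
    change Sum.map id π ∘ (Sum.map id (π⁻¹ : Perm (Fin k)) ∘ w) =
      Sum.map id π ∘ (w ∘ (g⁻¹ : Perm (Fin n)))
    rw [← map_mul_comp, mul_inv_cancel, map_one_comp, ← Function.comp_assoc, h]
    funext i
    simp
  by_cases h : ∃ π : Perm (Fin k), Sum.map id π ∘ w = w ∘ g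
  · obtain ⟨π, hπ⟩ := h
    rw [← key g π hπ, ← hπ, asy_of_eq hw, asy_of_eq hw, Equiv.Perm.sign_inv]
  · rw [asy_of_ne (v := w ∘ g) (by push Not at h; exact h)]
    refine asy_of_ne fun π hπ => h ⟨π⁻¹, ?_⟩
    have := key g⁻¹ π hπ
    rwa [inv_inv] at this

/-- The number of odd letters. -/
def odd (c : Fin n → Option (Fin (p + 1))) : ℕ := Fintype.card {i // c i = none}

/-- The word with labels. -/
def wd (c : Fin n → Option (Fin (p + 1))) : Fin n → Fin (p + 1) ⊕ Fin (odd c) :=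
  fun i => if h : c i = none then Sum.inr (Fintype.equivFin {i // c i = none} ⟨i, h⟩)
    else Sum.inl ((c i).getD 0)

/-- Forget the labels. -/
def bar : Fin (p + 1) ⊕ Fin k → Option (Fin (p + 1)) := Sum.elim some (fun _ => none)

theorem bar_map (π : Perm (Fin k)) (x : Fin (p + 1) ⊕ Fin k) : bar (Sum.map id π x) = bar x := by
  cases x <;> rfl

theorem bar_wd (c : Fin n → Option (Fin (p + 1))) (i : Fin n) : bar (wd c i) = c i := by
  unfold wd
  split_ifs with h
  · rw [h]; rfl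
  · change some ((c i).getD 0) = c i
    cases h1 : c i with
    | none => exact absurd h1 h
    | some a => rfl

theorem exa_wd (c : Fin n → Option (Fin (p + 1))) : Exa (wd c) := by
  intro j
  refine ⟨((Fintype.equivFin {i // c i = none}).symm j).1, ?_, ?_⟩
  · simp only [wd]
    rw [dif_pos ((Fintype.equivFin {i // c i = none}).symm j).2]
    exact congrArg Sum.inr ((Fintype.equivFin {i // c i = none}).apply_symm_apply j)
  · intro i hi
    simp only [wd] at hi
    split_ifs at hi with h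
    have h2 : Fintype.equivFin {i // c i = none} ⟨i, h⟩ = j := Sum.inr.inj hi
    rw [← h2]
    exact (congrArg Subtype.val
      ((Fintype.equivFin {i // c i = none}).symm_apply_apply ⟨i, h⟩)).symm

theorem comp_eq_of_ne_zero (c : Fin n → Option (Fin (p + 1))) (g : Perm (Fin n))
    (h : asy (wd c) (wd c ∘ g) ≠ 0) : c ∘ g = c := by
  have h1 : ∃ π : Perm (Fin (odd c)), Sum.map id π ∘ wd c = wd c ∘ g := by
    by_contra h2
    push Not at h2
    exact h (asy_of_ne h2)
  obtain ⟨π, hπ⟩ := h1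
  funext i
  have h2 := congrArg bar (congrFun hπ i)
  rw [Function.comp_apply, Function.comp_apply, bar_map, bar_wd, bar_wd] at h2
  exact h2.symm

/-- The signed number of the words fixed by a permutation. -/
def T (p n : ℕ) (g : Perm (Fin n)) : ℚ :=
  ∑ c : Fin n → Option (Fin (p + 1)), asy (wd c) (wd c ∘ g)

theorem T_one (p n : ℕ) : T p n 1 = ((p + 2 : ℕ) : ℚ) ^ n := by
  unfold T
  have h1 : ∀ c : Fin n → Option (Fin (p + 1)), asy (wd c) (wd c ∘ (1 : Perm (Fin n))) = 1 := by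
    intro c
    have h2 := asy_of_eq (exa_wd c) 1
    rw [map_one_comp] at h2
    rw [show wd c ∘ (1 : Perm (Fin n)) = wd c from rfl, h2]
    simp
  rw [Finset.sum_congr rfl fun c _ => h1 c]
  simp [add_assoc]

theorem T_inv (p n : ℕ) (g : Perm (Fin n)) : T p n g⁻¹ = T p n g :=
  Finset.sum_congr rfl fun c _ => asy_inv (exa_wd c) g

theorem abs_T_le (p n : ℕ) (g : Perm (Fin n)) :
    |T p n g| ≤ (fixN n (Option (Fin (p + 1))) g : ℚ) := by
  unfold T
  refine (Finset.abs_sum_le_sum_abs _ _).trans ?_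
  unfold fixN
  rw [Fintype.card_subtype, Finset.card_filter]
  push_cast
  refine Finset.sum_le_sum fun c _ => ?_
  by_cases h : c ∘ g = c
  · rw [if_pos h]
    exact abs_asy_le (exa_wd c) _
  · rw [if_neg h]
    by_contra h2
    refine h (comp_eq_of_ne_zero c g fun h3 => h2 ?_)
    rw [h3, abs_zero]

/-- The matrix of the signed numbers of fixed words. -/
def TM (p n : ℕ) : Matrix (Perm (Fin n)) (Perm (Fin n)) ℚ := fun t s => T p n (t⁻¹ * s)

theorem ker_le (p n : ℕ) : Ker p n ≤ LinearMap.ker (TM p n).mulVecLin := by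
  intro u hu
  rw [LinearMap.mem_ker]
  funext t
  rw [Matrix.mulVecLin_apply, Matrix.mulVec, Pi.zero_apply]
  change ∑ s, T p n (t⁻¹ * s) * u s = 0
  unfold T
  simp only [Finset.sum_mul]
  rw [Finset.sum_comm]
  refine Finset.sum_eq_zero fun c _ => ?_
  have h1 := congrFun (hu (odd c) (asy (wd c)) (asy_mem (exa_wd c)))
    (wd c ∘ (t⁻¹ : Perm (Fin n)))
  rw [Finset.sum_apply, Pi.zero_apply] at h1
  rw [← h1]
  refine Finset.sum_congr rfl fun s _ => ?_
  rw [Pi.smul_apply, actA_apply, smul_eq_mul, mul_comm]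
  rfl

theorem rank_le (p n : ℕ) :
    (TM p n).rank ≤ Module.finrank ℚ ((Perm (Fin n) → ℚ) ⧸ Ker p n) := by
  unfold Matrix.rank
  rw [← Submodule.range_liftQ (Ker p n) (TM p n).mulVecLin (ker_le p n)]
  exact LinearMap.finrank_range_le _

theorem rank_TM (p n : ℕ) :
    (p + 2) ^ (2 * n) ≤ (TM p n).rank * Nat.multichoose ((p + 2) ^ 2) n := by
  set S : Matrix (Perm (Fin n)) (Perm (Fin n)) ℝ := (TM p n).map (Rat.cast : ℚ → ℝ) with hS
  have hSe : ∀ σ τ, S σ τ = ((T p n (σ⁻¹ * τ) : ℚ) : ℝ) := fun σ τ => by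
    simp [hS, TM]
  have hSym : S.IsHermitian := by
    ext σ τ
    rw [Matrix.conjTranspose_apply, hSe, hSe, ← T_inv p n (σ⁻¹ * τ)]
    simp
  have h1 := trace_sq_le hSym
  have hcard : (Fintype.card (Perm (Fin n)) : ℝ) = (n.factorial : ℝ) := by
    rw [Fintype.card_perm, Fintype.card_fin]
  have h2 : S.trace = n.factorial * ((p + 2 : ℕ) : ℝ) ^ n := by
    unfold Matrix.trace
    have : ∀ σ, S.diag σ = ((p + 2 : ℕ) : ℝ) ^ n := by
      intro σ
      rw [Matrix.diag_apply, hSe, inv_mul_cancel, T_one]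
      push_cast
      rfl
    rw [Finset.sum_congr rfl fun σ _ => this σ, Finset.sum_const, Finset.card_univ, nsmul_eq_mul,
      hcard]
  have hca : Fintype.card (Option (Fin (p + 1))) = p + 2 := by simp
  have h3 : (S * S).trace ≤ n.factorial * ∑ σ : Perm (Fin n),
      (fixN n (Option (Fin (p + 1)) × Option (Fin (p + 1))) σ : ℝ) := by
    unfold Matrix.trace
    have : ∀ σ, (S * S).diag σ ≤ ∑ ρ : Perm (Fin n),
        (fixN n (Option (Fin (p + 1)) × Option (Fin (p + 1))) ρ : ℝ) := by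
      intro σ
      rw [Matrix.diag_apply, Matrix.mul_apply]
      have h4 : ∀ τ, S σ τ * S τ σ ≤
          (fixN n (Option (Fin (p + 1)) × Option (Fin (p + 1))) (σ⁻¹ * τ) : ℝ) := by
        intro τ
        rw [hSe, hSe, ← fixN_sq, ← T_inv p n (τ⁻¹ * σ), _root_.mul_inv_rev, inv_inv, ← pow_two]
        have h5 := abs_T_le p n (σ⁻¹ * τ)
        have h6 : T p n (σ⁻¹ * τ) ^ 2 ≤ (fixN n (Option (Fin (p + 1))) (σ⁻¹ * τ) : ℚ) ^ 2 := by
          rw [← sq_abs]
          exact pow_le_pow_left₀ (abs_nonneg _) h5 2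
        exact_mod_cast h6
      refine (Finset.sum_le_sum fun τ _ => h4 τ).trans (le_of_eq ?_)
      exact Equiv.sum_comp (Equiv.mulLeft σ⁻¹)
        (fun ρ => (fixN n (Option (Fin (p + 1)) × Option (Fin (p + 1))) ρ : ℝ))
    refine (Finset.sum_le_sum fun σ _ => this σ).trans (le_of_eq ?_)
    rw [Finset.sum_const, Finset.card_univ, nsmul_eq_mul, hcard]
  have h4 : (∑ σ : Perm (Fin n),
      (fixN n (Option (Fin (p + 1)) × Option (Fin (p + 1))) σ : ℝ)) ≤
      n.factorial * (Nat.multichoose ((p + 2) ^ 2) n : ℝ) := by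
    have := sum_fixN n (Option (Fin (p + 1)) × Option (Fin (p + 1)))
    rw [Fintype.card_prod, ← pow_two, hca] at this
    exact_mod_cast this
  have h5 : (S.rank : ℝ) ≤ ((TM p n).rank : ℝ) := by exact_mod_cast rank_map_le (TM p n)
  have hf : (0 : ℝ) < n.factorial := by exact_mod_cast n.factorial_pos
  rw [h2] at h1
  have h3' := h3.trans (mul_le_mul_of_nonneg_left h4 hf.le)
  have h6 : ((n.factorial : ℝ) * ((p + 2 : ℕ) : ℝ) ^ n) ^ 2 ≤
      ((TM p n).rank : ℝ) * (n.factorial * (n.factorial *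
        (Nat.multichoose ((p + 2) ^ 2) n : ℝ))) := by
    refine h1.trans ?_
    refine (mul_le_mul_of_nonneg_left h3' (Nat.cast_nonneg _)).trans ?_
    exact mul_le_mul_of_nonneg_right h5 (by positivity)
  have h7 : (((p + 2 : ℕ) : ℝ) ^ (2 * n)) ≤
      ((TM p n).rank : ℝ) * (Nat.multichoose ((p + 2) ^ 2) n : ℝ) := by
    have h8 : (n.factorial : ℝ) ^ 2 * (((p + 2 : ℕ) : ℝ) ^ (2 * n)) ≤
        (n.factorial : ℝ) ^ 2 * (((TM p n).rank : ℝ) *
          (Nat.multichoose ((p + 2) ^ 2) n : ℝ)) := by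
      calc (n.factorial : ℝ) ^ 2 * (((p + 2 : ℕ) : ℝ) ^ (2 * n)) =
          ((n.factorial : ℝ) * ((p + 2 : ℕ) : ℝ) ^ n) ^ 2 := by ring
        _ ≤ _ := h6
        _ = _ := by ring
    exact le_of_mul_le_mul_left h8 (by positivity)
  exact_mod_cast h7

theorem t_DIM2 : S_DIM2 := by
  intro p n
  exact (rank_TM p n).trans (Nat.mul_le_mul_right _ (rank_le p n))

end Pool.Agent.K3h66.GG
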